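import Pool.Agent.H43.TC.Targets2
import Pool.Agent.H60.TC.INQ
import Pool.Agent.H31.TC.REG

/-! The inequalities for the cycle (module CIN). -/

set_option autoImplicit false

open Finset Pool.Agent.H43.TC

namespace Pool.Agent.H59.TE

theorem lst_low (l : List (ℕ × ℕ)) (w : ℕ → ℕ) (J m : ℕ) (h : ∀ D, w 0 ≤ w D + D * J) :
    (((l.map (fun p : ℕ × ℕ => (m + 1) - (p.1 + p.2))).sum : ℝ) -
        ((l.map (fun p : ℕ × ℕ => m - (p.1 + p.2))).sum : ℝ)) * w 0 -
      ((m : ℝ) * ((l.map (fun p : ℕ × ℕ => (m + 1) - (p.1 + p.2))).sum : ℝ) -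
        (m + 1 : ℝ) * ((l.map (fun p : ℕ × ℕ => m - (p.1 + p.2))).sum : ℝ)) * J ≤
      ((l.map (fun p : ℕ × ℕ => w (p.1 + p.2))).sum : ℝ) := by
  induction l with
  | nil => simp
  | cons p l ih =>
    simp only [List.map_cons, List.sum_cons]
    rw [Nat.cast_add, Nat.cast_add, Nat.cast_add]
    set D := p.1 + p.2 with hD
    have key : (((m + 1 - D : ℕ) : ℝ) - ((m - D : ℕ) : ℝ)) * w 0 -
        ((m : ℝ) * ((m + 1 - D : ℕ) : ℝ) - (m + 1 : ℝ) * ((m - D : ℕ) : ℝ)) * J ≤ (w D : ℝ) := by
      by_cases hDm : D ≤ m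
      · have h1 : ((m + 1 - D : ℕ) : ℝ) = m + 1 - D := by
          rw [Nat.cast_sub (by omega)]
          push_cast
          ring
        have h2 : ((m - D : ℕ) : ℝ) = m - D := by
          rw [Nat.cast_sub hDm]
        have h3 : (w 0 : ℝ) ≤ w D + D * J := by exact_mod_cast h D
        rw [h1, h2]
        nlinarith
      · have h1 : m + 1 - D = 0 := by omega
        have h2 : m - D = 0 := by omega
        rw [h1, h2]
        simp
    nlinarith

theorem lst_pos (l : List (ℕ × ℕ)) (m : ℕ) :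
    0 ≤ (m : ℝ) * ((l.map (fun p : ℕ × ℕ => (m + 1) - (p.1 + p.2))).sum : ℝ) -
        (m + 1 : ℝ) * ((l.map (fun p : ℕ × ℕ => m - (p.1 + p.2))).sum : ℝ) := by
  induction l with
  | nil => simp
  | cons p l ih =>
    simp only [List.map_cons, List.sum_cons]
    rw [Nat.cast_add, Nat.cast_add]
    set D := p.1 + p.2 with hD
    have key : 0 ≤ (m : ℝ) * ((m + 1 - D : ℕ) : ℝ) - (m + 1 : ℝ) * ((m - D : ℕ) : ℝ) := by
      by_cases hDm : D ≤ m
      · have h1 : ((m + 1 - D : ℕ) : ℝ) = m + 1 - D := by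
          rw [Nat.cast_sub (by omega)]
          push_cast
          ring
        have h2 : ((m - D : ℕ) : ℝ) = m - D := by
          rw [Nat.cast_sub hDm]
        have h3 : (0 : ℝ) ≤ D := Nat.cast_nonneg _
        rw [h1, h2]
        nlinarith
      · have h1 : m + 1 - D = 0 := by omega
        have h2 : m - D = 0 := by omega
        rw [h1, h2]
        simp
    nlinarith

theorem lst_up (l : List (ℕ × ℕ)) (w : ℕ → ℕ) (J : ℕ) (h : ∀ D, 1 ≤ D → w D + J ≤ w 0)
    (hl : ∀ p ∈ l, 1 ≤ p.1 + p.2) :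
    (l.map (fun p : ℕ × ℕ => w (p.1 + p.2))).sum + l.length * J ≤ l.length * w 0 := by
  induction l with
  | nil => simp
  | cons p l ih =>
    simp only [List.map_cons, List.sum_cons, List.length_cons]
    have h1 := ih fun q hq => hl q (List.mem_cons_of_mem _ hq)
    have h2 := h _ (hl p List.mem_cons_self)
    nlinarith

theorem cin (hWDT : T_WDT) (hRUN : T_RUN) (hEXB : T_EXB) (hPWX : T_PWX) (hDNS : T_DNS) :
    T_CIN := by
  intro t m x y ht hxy
  have hinq : T_INQ := Pool.Agent.H60.TC.inq Pool.Agent.H31.TC.reg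
  set W1 : ℝ := (pathWalks (m + 1) t : ℝ) with hW1
  set W0 : ℝ := (pathWalks m t : ℝ) with hW0
  set S : ℝ := (m : ℝ) * W1 - (m + 1 : ℝ) * W0 with hS
  have e1 : W1 = (((ex t).map (fun p : ℕ × ℕ => (m + 1) - (p.1 + p.2))).sum : ℝ) := by
    rw [hW1, hPWX]
  have e0 : W0 = (((ex t).map (fun p : ℕ × ℕ => m - (p.1 + p.2))).sum : ℝ) := by
    rw [hW0, hPWX]
  have hS0 : 0 ≤ S := by
    rw [hS, e1, e0]
    exact lst_pos (ex t) m
  have h2t : (0 : ℝ) < 2 ^ t := by positivity
  have main := hinq 1 t (2 ^ t) S ((W1 - W0) + S) one_pos (by positivity) hS0 ?_ x y hxy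
  · linarith
  · intro n c
    have he : (e : Fin 1 → Tor 1 (n + 3)) = fun _ : Fin 1 => e 0 := by
      funext i
      rw [Subsingleton.elim i 0]
    obtain ⟨hJ, hrun⟩ := hRUN (Tor 1 (n + 3)) (e 0) c
    set J := jp (e 0 : Tor 1 (n + 3)) c false with hJdef
    have htot : ∀ b, total c b t =
        ((ex t).map (fun p => wd (e 0 : Tor 1 (n + 3)) c b (p.1 + p.2))).sum := by
      intro b
      unfold total
      rw [he]
      exact hWDT (Tor 1 (n + 3)) (e 0) c b t
    obtain ⟨hd1, hd2, hd3, -⟩ := hDNS 1 (n + 3) t c one_pos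
    obtain ⟨hlen, hex⟩ := hEXB t
    -- the blue side
    have hF := (hrun false).2
    have hlow := lst_low (ex t) (wd (e 0 : Tor 1 (n + 3)) c false) J m fun D => (hF D).1
    rw [← htot false, ← e1, ← e0, ← hS] at hlow
    have hw0F : (wd (e 0 : Tor 1 (n + 3)) c false 0 : ℝ) = size c false := by
      rw [(hrun false).1]
      rfl
    rw [hw0F] at hlow
    -- the red side
    have hT := (hrun true).2
    have hup := lst_up (ex t) (wd (e 0 : Tor 1 (n + 3)) c true) J
      (fun D hD => by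
        have := (hT D).2 hD
        rw [hJ] at this
        exact this)
      (fun p hp => (hex p hp).2 ht)
    rw [← htot true, hlen, (hrun true).1] at hup
    have hup' : (total c true t : ℝ) + 2 ^ t * J ≤ 2 ^ t * size c true := by
      exact_mod_cast hup
    -- densities
    set V : ℝ := ((n + 3 : ℕ) : ℝ) with hV
    have hV0 : 0 < V := by
      rw [hV]
      positivity
    have s1 := hd2 true
    have s2 := hd2 false
    have s3 := hd3 true
    have s4 := hd3 false
    rw [pow_one] at s1 s2 s3 s4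
    have e5 : (2 * ((1 : ℕ) : ℝ)) ^ t = 2 ^ t := by norm_num
    rw [e5] at s3 s4
    rw [s1, s3] at hup'
    rw [s2, s4] at hlow
    have h7 : S * J * 2 ^ t ≤ S * (2 ^ t * (dens c true * V) - mono c true t * (V * 2 ^ t)) := by
      have := mul_le_mul_of_nonneg_left hup' hS0
      nlinarith
    have h8 : 0 < V * 2 ^ t := by positivity
    have h9 : ((W1 - W0) * dens c false - S * (dens c true - mono c true t)) * (V * 2 ^ t) ≤
        (2 ^ t * mono c false t) * (V * 2 ^ t) := by
      have h10 := mul_le_mul_of_nonneg_right hlow h2t.le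
      nlinarith
    have h11 := le_of_mul_le_mul_right h9 h8
    have h12 : dens c true = 1 - dens c false := by linarith
    rw [h12] at h11
    linarith

end Pool.Agent.H59.TE
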