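import Pool.Agent.H43.TC.Targets2

/-! The defect of a red vertex is nonnegative (module DFN). -/

set_option autoImplicit false

open Finset Pool.Agent.H43.TC

namespace Pool.Agent.H59.TE

theorem rng_sub_one (k t : ℕ) :
    rng k t - 1 = ∑ j ∈ range t, (avoid k (j + 1) : ℝ) / (2 * k : ℝ) ^ (j + 1) := by
  unfold rng
  rw [sum_range_succ']
  simp [avoid]

theorem dfn (hNXB : T_NXB) (hHBD : T_HBD) : T_DFN := by
  intro k n t c x hk ht hc
  obtain ⟨t, rfl⟩ : ∃ m, t = m + 1 := ⟨t - 1, by omega⟩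
  have hk0 : (0 : ℝ) < 2 * k := by positivity
  unfold df
  rw [sub_nonneg, rng_sub_one]
  have h1 : (2 * k : ℝ) ^ t * blu e c x ≤ (2 * k : ℝ) ^ (t + 1) - walks e c true (t + 1) x := by
    have h2 := hHBD (Tor k n) k e c t x
    have h3 : ((walks e c true (t + 1) x + (2 * k) ^ t * blu e c x : ℕ) : ℝ) ≤
        (((2 * k) ^ (t + 1) : ℕ) : ℝ) := Nat.cast_le.2 h2
    push_cast at h3
    linarith
  have h4 : 0 ≤ ∑ j ∈ range (t + 1), (avoid k (j + 1) : ℝ) / (2 * k : ℝ) ^ (j + 1) :=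
    sum_nonneg fun j _ => by positivity
  refine le_trans ?_ (mul_le_mul_of_nonneg_left h1 h4)
  rw [sum_mul]
  refine sum_le_sum fun j hj => ?_
  have hjt : j ≤ t := by
    have := mem_range.1 hj
    omega
  have h5 := hNXB k n c x hk hc j
  have h6 : ((2 * k * nxt e c j x : ℕ) : ℝ) ≤ ((blu e c x * avoid k (j + 1) : ℕ) : ℝ) :=
    Nat.cast_le.2 h5
  push_cast at h6
  have e1 : (2 * k : ℝ) ^ t = (2 * k : ℝ) ^ (t - j) * (2 * k : ℝ) ^ j := by
    rw [← pow_add, Nat.sub_add_cancel hjt]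
  have e2 : t + 1 - 1 - j = t - j := by omega
  rw [e2]
  have e3 : (avoid k (j + 1) : ℝ) / (2 * k : ℝ) ^ (j + 1) * ((2 * k : ℝ) ^ t * blu e c x) =
      (2 * k : ℝ) ^ (t - j) * ((blu e c x * avoid k (j + 1)) / (2 * k)) := by
    rw [e1, pow_succ]
    field_simp
  rw [e3]
  refine mul_le_mul_of_nonneg_left ?_ (by positivity)
  rw [le_div_iff₀ hk0]
  linarith

end Pool.Agent.H59.TE
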